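import Pool.Agent.X28.MA.Pat

/-! Every dense set of shifts contains a positive proportion of `m`-element sets which are realised
by consecutive primes the expected number of times; version with all primes of the window in the set. -/

set_option autoImplicit false

open Finset

namespace Pool.Agent.X28.MA

open Pool.Agent.X28.EO
open Pool.Agent.Y958.U (hh)
open Pool.Agent.Y904.U (moment hh_nonneg hh_pow)

/-- the primes in `(n, n + W]` all lie in `n + E`, and the first ones are the `n + b`, `b ∈ B` -/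
def Conf (E B : Finset ℕ) (W : ℝ) (n : ℕ) : Prop :=
  (∀ b ∈ B, (n + b).Prime) ∧ ∀ y : ℕ, 1 ≤ y → (y : ℝ) ≤ W → (n + y).Prime →
    y ∈ E ∧ ((∃ b ∈ B, y ≤ b) → y ∈ B)

theorem dense2 (m : ℕ) (ρ Λ : ℝ) (hρ : 0 < ρ) (hΛ : 0 < Λ) :
    ∃ c C : ℝ, 0 < c ∧ ∃ x₀ : ℕ, ∀ x : ℕ, x₀ ≤ x → ∀ E : Finset ℕ,
      (∀ a ∈ E, 1 ≤ a ∧ (a : ℝ) ≤ Λ * Real.log x) → ρ * Real.log x ≤ E.card →
      ∃ F : Finset (Finset ℕ), c * (Real.log x) ^ m ≤ F.card ∧ ∀ B ∈ F, B ⊆ E ∧ B.card = m ∧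
        Admissible B ∧
        (∃ G : Finset ℕ, c * (x / (Real.log x) ^ m) ≤ G.card ∧
          ∀ n ∈ G, 1 ≤ n ∧ n ≤ x ∧ Conf E B (Λ * Real.log x) n) ∧
        (((Icc 1 x).filter (fun n => ∀ h ∈ B, (n + h).Prime)).card : ℝ) ≤
          C * (x / (Real.log x) ^ m) := by
  classical
  obtain ⟨c₁, hc₁, N₁, h₁⟩ := masterA m ρ (2 * Λ) hρ (by positivity)
  obtain ⟨C₂, N₂, hC₂, h₂⟩ := sieveH m
  obtain ⟨C₃, hC₃, h₃⟩ := setSum m
  obtain ⟨A, hA⟩ : ∃ A : ℝ, A = Λ ^ m := ⟨_, rfl⟩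
  have hA0 : 0 < A := by rw [hA]; positivity
  obtain ⟨c₄, hc₄⟩ : ∃ c₄ : ℝ, c₄ = c₁ / 4 := ⟨_, rfl⟩
  have hc₄0 : 0 < c₄ := by rw [hc₄]; positivity
  obtain ⟨c₅, hc₅⟩ : ∃ c₅ : ℝ, c₅ = c₄ / (4 * A) := ⟨_, rfl⟩
  have hc₅0 : 0 < c₅ := by rw [hc₅]; positivity
  obtain ⟨K, hK⟩ : ∃ K : ℝ, K = 4 * C₂ * C₃ * A / c₄ := ⟨_, rfl⟩
  have hK0 : 0 < K := by rw [hK]; positivity
  have hlog := Real.tendsto_log_atTop.comp (tendsto_natCast_atTop_atTop (R := ℝ))
  have e1 := hlog.eventually_ge_atTop 1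
  have e2 := hlog.eventually_ge_atTop (1 / Λ)
  have e4 : ∀ᶠ x : ℕ in Filter.atTop, ((m : ℝ) + 1) * (Real.log x) ^ m ≤ c₅ * x := by
    have h1 : (fun x : ℝ => Real.log x ^ m) =o[Filter.atTop] (fun x : ℝ => x) :=
      Real.isLittleO_pow_log_id_atTop
    have h2 := h1.bound (show (0 : ℝ) < c₅ / (m + 1) by positivity)
    have h3 := tendsto_natCast_atTop_atTop (R := ℝ) |>.eventually h2
    filter_upwards [h3, Filter.eventually_ge_atTop 1] with X hX hX1
    have hX1' : (1 : ℝ) ≤ X := by exact_mod_cast hX1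
    rw [Real.norm_of_nonneg (pow_nonneg (Real.log_nonneg hX1') _),
      Real.norm_of_nonneg (by linarith)] at hX
    calc ((m : ℝ) + 1) * (Real.log X) ^ m ≤ ((m : ℝ) + 1) * (c₅ / (m + 1) * X) :=
          mul_le_mul_of_nonneg_left hX (by positivity)
      _ = c₅ * X := by field_simp
  obtain ⟨X₀, hX₀⟩ := Filter.eventually_atTop.1 ((e1.and e2).and e4)
  refine ⟨min c₅ (c₄ / (2 * (C₂ * K))), C₂ * K, lt_min hc₅0 (by positivity),
    X₀ + 2 * N₁ + N₂ + 16, fun x hx E hE hcard => ?_⟩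
  obtain ⟨⟨f1, f2⟩, f4⟩ := hX₀ x (by omega)
  simp only [Function.comp_apply] at f1 f2
  obtain ⟨L, hL⟩ : ∃ L, L = Real.log x := ⟨_, rfl⟩
  rw [← hL] at f1 f2 f4 hE hcard ⊢
  have hxpos : (0 : ℝ) < x := by exact_mod_cast (by omega : 0 < x)
  have hLpos : 0 < L := by linarith
  obtain ⟨D, hD⟩ : ∃ D, D = ⌊Λ * L⌋₊ := ⟨_, rfl⟩
  have hlL : 1 ≤ Λ * L := by
    rw [div_le_iff₀ hΛ] at f2
    linarith
  have hD1 : 1 ≤ D := by
    rw [hD]
    exact Nat.le_floor (by exact_mod_cast hlL)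
  have hD2 : (D : ℝ) ≤ Λ * L := by
    rw [hD]
    exact Nat.floor_le (by positivity)
  have hED : E ⊆ Icc 1 D := by
    intro a ha
    rw [mem_Icc, hD]
    exact ⟨(hE a ha).1, Nat.le_floor (hE a ha).2⟩
  obtain ⟨N, hN⟩ : ∃ N, N = x / 2 := ⟨_, rfl⟩
  have hN8 : 8 ≤ N := by omega
  have hNx : x ≤ N ^ 2 := by
    have h1 : x ≤ 2 * N + 1 := by omega
    nlinarith
  have hNpos : (0 : ℝ) < N := by exact_mod_cast (by omega : 0 < N)
  have hlN1 : Real.log N ≤ L := by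
    rw [hL]
    exact Real.log_le_log hNpos (by exact_mod_cast (by omega : N ≤ x))
  have hlN2 : L ≤ 2 * Real.log N := by
    have h5 : (x : ℝ) ≤ (N : ℝ) ^ 2 := by exact_mod_cast hNx
    have h6 := Real.log_le_log hxpos h5
    rw [Real.log_pow] at h6
    rw [hL]
    exact_mod_cast h6
  have hm1 := h₁ N (by omega) E (fun a ha => ⟨(hE a ha).1, (hE a ha).2.trans (by
      have := mul_le_mul_of_nonneg_left hlN2 hΛ.le
      linarith)⟩) (le_trans (mul_le_mul_of_nonneg_left hlN1 hρ.le) hcard)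
  obtain ⟨S, hS⟩ : ∃ S, S = (Ico N (2 * N)).filter (fun n => GoodA m E (2 * Λ) N n) := ⟨_, rfl⟩
  rw [← hS] at hm1
  have hScard : c₄ * x ≤ S.card := by
    have h5 : (x : ℝ) / 4 ≤ N := by
      have h6 : x ≤ 4 * N := by omega
      have h7 : (x : ℝ) ≤ 4 * N := by exact_mod_cast h6
      linarith
    have h7 : c₁ * ((x : ℝ) / 4) ≤ c₁ * N := mul_le_mul_of_nonneg_left h5 hc₁.le
    rw [hc₄]
    linarith
  -- counting
  have hex : ∀ n : ℕ, ∃ B : Finset ℕ, n ∈ S → B ∈ powersetCard m E ∧ Conf E B (Λ * L) n := by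
    intro n
    by_cases hn : n ∈ S
    · rw [hS, mem_filter] at hn
      obtain ⟨B, hB1, hB2, hB3⟩ := first_elts _ m hn.2.1
      refine ⟨B, fun _ => ⟨?_, fun b hb => (mem_filter.1 (hB1 hb)).2, fun y hy1 hyb hy => ?_⟩⟩
      · rw [mem_powersetCard]
        exact ⟨hB1.trans (filter_subset _ _), hB2⟩
      · have hyE : y ∈ E := by
          refine hn.2.2 y ?_ hy
          rw [mem_Icc]
          refine ⟨hy1, Nat.le_floor ?_⟩
          have := mul_le_mul_of_nonneg_left hlN2 hΛ.le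
          linarith
        exact ⟨hyE, fun hyb => hB3 y (mem_filter.2 ⟨hyE, hy⟩) hyb⟩
    · exact ⟨∅, fun h => absurd h hn⟩
  choose q hq using hex
  obtain ⟨NB, hNB⟩ : ∃ NB : Finset ℕ → ℕ, NB = fun B =>
    ((Icc 1 x).filter (fun n => Conf E B (Λ * L) n)).card := ⟨_, rfl⟩
  have hcnt : S.card ≤ ∑ B ∈ powersetCard m E, NB B := by
    have h1 : ∑ B ∈ powersetCard m E, NB B =
        ((powersetCard m E).sigma (fun B => (Icc 1 x).filter (fun n => Conf E B (Λ * L) n))).card := by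
      rw [Finset.card_sigma, hNB]
    rw [h1]
    refine Finset.card_le_card_of_injOn
      (fun n => (⟨q n, n⟩ : Sigma fun _ : Finset ℕ => ℕ)) ?_ ?_
    · intro n hn
      rw [Finset.mem_coe] at hn
      obtain ⟨h2, h3⟩ := hq n hn
      rw [Finset.mem_coe, Finset.mem_sigma, mem_filter, mem_Icc]
      rw [hS, mem_filter, mem_Ico] at hn
      refine ⟨h2, ⟨?_, ?_⟩, h3⟩
      · show 1 ≤ n
        omega
      · show n ≤ x
        omega
    · intro a _ b _ hab
      exact congrArg (fun s : (Sigma fun _ : Finset ℕ => ℕ) => s.2) hab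
  have hcnt' : (S.card : ℝ) ≤ ∑ B ∈ powersetCard m E, (NB B : ℝ) := by
    exact_mod_cast hcnt
  have htot : c₄ * x ≤ ∑ B ∈ powersetCard m E, (NB B : ℝ) := hScard.trans hcnt'
  obtain ⟨T, hT⟩ : ∃ T : ℝ, T = x / L ^ m := ⟨_, rfl⟩
  have hT0 : 0 < T := by rw [hT]; positivity
  have hTL : L ^ m * T = x := by
    rw [hT]
    field_simp
  obtain ⟨F, hF1, hF2, hF3⟩ := final_ineq (powersetCard m E) (fun B => (NB B : ℝ))
    (fun H => (((Icc 1 x).filter (fun n => ∀ h ∈ H, (n + h).Prime)).card : ℝ)) (GH m)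
    (c₅ := c₅) (K := K) (C₂ := C₂) (T := T) (M := C₃ * (A * L ^ m)) (Q := A * L ^ m)
    (A := c₄ * x)
    (fun B _ => by
      have h1 : NB B ≤ ((Icc 1 x).filter (fun n => ∀ h ∈ B, (n + h).Prime)).card := by
        rw [hNB]
        refine card_le_card ?_
        intro n hn
        rw [mem_filter] at hn ⊢
        exact ⟨hn.1, hn.2.1⟩
      exact_mod_cast h1) (fun H _ => GH_nonneg m H) hK0 hC₂ hT0
    (fun B hB => by
      rw [mem_powersetCard] at hB
      have := h₂ x (by omega) B hB.2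
      rw [← hL, ← hT] at this
      exact this)
    (by
      refine (h₃ D hD1 E hED).trans (mul_le_mul_of_nonneg_left ?_ hC₃.le)
      rw [hA, ← mul_pow]
      exact pow_le_pow_left₀ (Nat.cast_nonneg _) hD2 _)
    (by
      have h1 : (powersetCard m E).card ≤ D ^ m := by
        rw [card_powersetCard]
        refine (Nat.choose_le_pow _ _).trans (Nat.pow_le_pow_left ?_ _)
        have := card_le_card hED
        rwa [Nat.card_Icc, Nat.add_sub_cancel] at this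
      have h2 : ((powersetCard m E).card : ℝ) ≤ (D : ℝ) ^ m := by exact_mod_cast h1
      refine h2.trans ?_
      rw [hA, ← mul_pow]
      exact pow_le_pow_left₀ (by positivity) hD2 _)
    htot hc₅0
    (by
      have h1 : A * L ^ m * (c₅ * T) = A * c₅ * (L ^ m * T) := by ring
      rw [h1, hTL, hc₅]
      refine le_of_eq ?_
      field_simp)
    (by
      have h1 : C₂ * T / K * (C₃ * (A * L ^ m)) = C₂ * C₃ * A / K * (L ^ m * T) := by
        ring
      rw [h1, hTL, hK]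
      refine le_of_eq ?_
      field_simp)
  refine ⟨F, ?_, fun B hB => ?_⟩
  · have h1 : c₄ * x / 2 = c₄ / (2 * (C₂ * K)) * L ^ m * (C₂ * K * T) := by
      have h2 : c₄ / (2 * (C₂ * K)) * L ^ m * (C₂ * K * T) =
          c₄ / (2 * (C₂ * K)) * (C₂ * K) * (L ^ m * T) := by ring
      rw [h2, hTL]
      field_simp
    rw [h1] at hF3
    have h2 : c₄ / (2 * (C₂ * K)) * L ^ m ≤ F.card :=
      le_of_mul_le_mul_right hF3 (by positivity)
    refine le_trans (mul_le_mul_of_nonneg_right (min_le_right _ _) (by positivity)) h2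
  · have hP := hF1 hB
    rw [mem_powersetCard] at hP
    obtain ⟨hP1, hP2⟩ := hP
    obtain ⟨g1, g2⟩ := hF2 B hB
    refine ⟨hP1, hP2, ?_, ⟨(Icc 1 x).filter (fun n => Conf E B (Λ * L) n), ?_, ?_⟩, ?_⟩
    · refine adm_of (x := x) hP2 ?_
      have h1 : (m : ℝ) + 1 ≤ c₅ * T := by
        rw [hT, ← mul_div_assoc, le_div_iff₀ (by positivity)]
        exact f4
      have h2 : (m : ℝ) + 1 ≤ (NB B : ℝ) := h1.trans g1
      have h3 : m + 1 ≤ NB B := by exact_mod_cast h2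
      have h4 : NB B ≤ ((Icc 1 x).filter (fun n => ∀ h ∈ B, (n + h).Prime)).card := by
        rw [hNB]
        refine card_le_card ?_
        intro n hn
        rw [mem_filter] at hn ⊢
        exact ⟨hn.1, hn.2.1⟩
      omega
    · rw [← hT]
      refine le_trans (mul_le_mul_of_nonneg_right (min_le_left _ _) hT0.le) ?_
      rw [hNB] at g1
      exact g1
    · intro n hn
      rw [mem_filter, mem_Icc] at hn
      exact ⟨hn.1.1, hn.1.2, hn.2⟩
    · rw [← hT]
      exact g2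

end Pool.Agent.X28.MA
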