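import Pool.Agent.H361R2.PP.Cls3

/-! One class, arbitrary sets of shifts. -/

set_option autoImplicit false

open Finset

namespace Pool.Agent.X28.MA

open Pool.Agent.H361R2.PP
open Pool.Agent.H410R2.AC (wt GG cfg term WW pos Inj coef)

/-- the shifts of the set which survive the small primes -/
noncomputable def AS (X b N : ℕ) (E : Finset ℕ) : Finset ℕ := (BB X b N).filter (fun a => a ∈ E)

/-- the surviving shifts outside the set -/
noncomputable def ES (X b N : ℕ) (E : Finset ℕ) : Finset ℕ := (BB X b N).filter (fun a => a ∉ E)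

/-- the good integers: at least `m` shifts of `E` give primes, and no other positive integer up to `Λ log X` does -/
def GoodA (m : ℕ) (E : Finset ℕ) (Λ : ℝ) (X n : ℕ) : Prop :=
  m ≤ (E.filter (fun a => (n + a).Prime)).card ∧
    ∀ a ∈ Icc 1 ⌊Λ * Real.log X⌋₊, (n + a).Prime → a ∈ E

theorem goodA_of (m : ℕ) (E : Finset ℕ) (Λ : ℝ) {X b n : ℕ} (hX : HH X < X)
    (hn : n ∈ SI X b)
    (h1 : 1 ≤ 4 * Gd m (fun _ : Fin 1 => Np (AS X b ⌊Λ * Real.log X⌋₊ E)) n)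
    (h2 : Np (ES X b ⌊Λ * Real.log X⌋₊ E) n = 0) : GoodA m E Λ X n := by
  constructor
  · have h3 : 0 < Gd m (fun _ : Fin 1 => Np (AS X b ⌊Λ * Real.log X⌋₊ E)) n := by omega
    unfold Gd at h3
    rw [card_pos] at h3
    obtain ⟨i, hi⟩ := h3
    rw [mem_filter] at hi
    refine hi.2.trans ?_
    unfold Np
    apply card_le_card
    intro a ha
    rw [mem_filter] at ha ⊢
    unfold AS at ha
    rw [mem_filter] at ha
    exact ⟨ha.1.2, ha.2⟩
  · intro a ha hp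
    by_contra hcon
    rw [mem_Icc] at ha
    have h3 : a ∈ (ES X b ⌊Λ * Real.log X⌋₊ E).filter (fun a => (n + a).Prime) := by
      rw [mem_filter]
      refine ⟨?_, hp⟩
      unfold ES
      rw [mem_filter]
      exact ⟨prime_BB hX hn ha.1 ha.2 hp, hcon⟩
    unfold Np at h2
    rw [card_eq_zero] at h2
    rw [h2] at h3
    exact absurd h3 (notMem_empty a)

open Classical in
theorem clsA (hCol : Col) (hCob : Cob) (hMni : Mni) (hPz : Pz) (hCs : Cs)
    {t : ℕ} {u : Fin t → ℝ} {c0 δ : ℝ} {X : ℕ} {Λ θ s C η c : ℝ} {b : ℕ}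
    {β : Fin t → ℝ} {D : Dat t u c0 δ X} (h : Sit Λ θ s C η c b β D) (hX : 1 ≤ X)
    (hHX : HH X < X) (hL : 0 < Real.log X)
    (hθ0 : 0 < θ) (hθ : θ ≤ 1 / 32) (hC : 0 < C) (hΛ : 0 < Λ)
    (m : ℕ) (E : Finset ℕ) (ε : ℝ) (hε : 0 < ε)
    (hcf : ∀ a, D.cf a = if a ∈ E then c else -1)
    (hcA : ((AS X b ⌊Λ * Real.log X⌋₊ E).card : ℝ) =
      ε * Real.log X * (Nat.totient (Wm X) / Wm X))
    (hcB : ((BB X b ⌊Λ * Real.log X⌋₊).card : ℝ) ≤
      (1 + s) * (Λ * Real.log X * (Nat.totient (Wm X) / Wm X)))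
    (hpnt : |Pr X * Real.log X - X| ≤ s * X)
    (hVG : VV δ X / GG (S1 δ θ X) * (((Nat.totient (Wm X) : ℝ) / Wm X) *
      ((1 / 4 - 3 * θ) * Real.log X)) ≤ 1)
    (s' μ ξ : ℝ) (hs' : 7 * s ≤ s') (hs'1 : s' ≤ 1) (hμ : μ = ε * (1 + c) ^ 2)
    (hm : (1 + s') * (m : ℝ) ≤ (1 - s') * μ)
    (hξ : 1 / 4 - ξ ≤ ((1 - s') * μ - (1 + s') * m) ^ 2 /
      ((1 + s) ^ 4 / (1 / 4 - 3 * θ) * μ ^ 2 + (1 + s') * μ))
    (hfin : 4 * (1 : ℕ) * ξ + ((1 : ℕ) + 1) * s' + 4 * ((1 : ℕ) + 1) * (20 * Λ * s) ≤ (3 / 4 : ℝ)) :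
    (X : ℝ) / Wm X / (16 * (3 * (1 : ℕ) + 1) ^ 2 * C) ≤
      (((SI X b).filter (fun n => GoodA m E Λ X n)).card : ℝ) := by
  set N := ⌊Λ * Real.log X⌋₊ with hN
  set B := BB X b N with hB
  set M := ZZ D B (fun _ => 1) with hM
  set Ω := (X : ℝ) / Wm X with hΩ
  set Ω' := Pr X / Nat.totient (Wm X) with hΩ'
  set L := Real.log X with hLd
  set f := (Nat.totient (Wm X) : ℝ) / Wm X with hf
  set V : ℕ → ℝ := fun n => WW B (fun _ => 1) (xx D n) with hV
  have hs0 := h.s0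
  have hs1 := h.s1
  have hc := h.c00
  have hW0 : (0 : ℝ) < Wm X := by exact_mod_cast Wm_pos X
  have hφ0 : (0 : ℝ) < Nat.totient (Wm X) := by exact_mod_cast Nat.totient_pos.2 (Wm_pos X)
  have hX0 : (0 : ℝ) < X := by exact_mod_cast hX
  have hΩ0 : 0 < Ω := div_pos hX0 hW0
  have hΩ'0 : 0 ≤ Ω' := Om'_nonneg X
  have hf0 : 0 < f := div_pos hφ0 hW0
  have hM1 : 1 ≤ M := by
    rw [hM, ZZ_one]
    exact (hMni t B β (qq D) η h.η0 h.β0 h.β1 (fun τ a => qq_nonneg h.v0 τ a) h.hη).1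
  have hM0 : 0 < M := by linarith
  have hLf : L * f * Ω' = Pr X * L / Wm X := by
    rw [hf, hΩ']
    field_simp
  have hLf1 : L * f * Ω' ≤ (1 + s) * Ω := by
    rw [hLf, hΩ, ← mul_div_assoc]
    apply div_le_div_of_nonneg_right _ hW0.le
    have := (abs_le.1 hpnt).2
    linarith
  have hLf2 : (1 - s) * Ω ≤ L * f * Ω' := by
    rw [hLf, hΩ, ← mul_div_assoc]
    apply div_le_div_of_nonneg_right _ hW0.le
    have := (abs_le.1 hpnt).1
    linarith
  have hθ4 : 5 / 32 ≤ 1 / 4 - 3 * θ := by linarith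
  set v := VV δ X / GG (S1 δ θ X) with hv
  have hG1 : 1 ≤ GG (S1 δ θ X) := GG1_ge hX hθ
  have hv0 : 0 ≤ v := div_nonneg h.v0 (by linarith)
  set w4 := 1 / 4 - 3 * θ with hw4
  have hw40 : 0 < w4 := by linarith
  have hvL : v * (f * L) ≤ 1 / w4 := by
    rw [le_div_iff₀ hw40]
    calc v * (f * L) * w4 = v * (f * (w4 * L)) := by ring
      _ ≤ 1 := hVG
  have hμ0 : 0 < μ := by rw [hμ]; positivity
  have hcov : ∀ _i : Fin 1, ∀ a ∈ AS X b N E, a ∈ B ∧ D.cf a = c := by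
    intro i a ha
    unfold AS at ha
    rw [mem_filter] at ha
    refine ⟨ha.1, ?_⟩
    rw [hcf a, if_pos ha.2]
  -- cardinalities
  have hAp : 0 < ε * L * f := mul_pos (mul_pos hε hL) hf0
  have hA1 : ∀ _i : Fin 1, (1 - s) * (ε * L * f) ≤ ((AS X b N E).card : ℝ) := by
    intro i
    rw [hcA]
    have := mul_nonneg hs0 hAp.le
    linarith
  have hA2 : ∀ _i : Fin 1, ((AS X b N E).card : ℝ) ≤ (1 + s) * (ε * L * f) := by
    intro i
    rw [hcA]
    have := mul_nonneg hs0 hAp.le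
    linarith
  have hLf0 : 0 < L * f := mul_pos hL hf0
  -- second moment
  have hsm := (h.sm B (Subset.refl _) (fun _ => 1) (by
    intro σ
    rw [abs_one]
    have := h.cc0
    nlinarith))
  have hsm1 := abs_le.1 hsm.1
  have hsM : s * Ω ≤ s * (Ω * M) := by
    apply mul_le_mul_of_nonneg_left _ hs0
    nlinarith
  obtain ⟨A, hA⟩ : ∃ A : ℝ, A = Ω * M := ⟨_, rfl⟩
  rw [← hA] at hsM
  have hsm2 : ∑ n ∈ SI X b, V n ^ 2 ≤ A + s * Ω := by
    rw [hA]
    linarith [hsm1.2]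
  have hsm3 : A - s * Ω ≤ ∑ n ∈ SI X b, V n ^ 2 := by
    rw [hA]
    linarith [hsm1.1]
  have hA0 : 0 < A := by
    rw [hA]
    exact mul_pos hΩ0 hM0
  obtain ⟨h1, h1'⟩ := in4 hs' hs0 hA0 hsM hsm2 hsm3
  -- clusters, first moment
  have h2 : ∀ _i : Fin 1, (1 - s') * μ * A ≤ ∑ n ∈ SI X b, V n ^ 2 * Np (AS X b N E) n := by
    intro i
    rw [moment1]
    have h3 : ((AS X b N E).card : ℝ) * (Ω' * ((1 + c) ^ 2 * M * (1 - 3 * s))) ≤
        ∑ a ∈ AS X b N E, ∑ n ∈ SP X b a, V n ^ 2 := by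
      rw [← nsmul_eq_mul, ← sum_const]
      refine sum_le_sum fun a ha => ?_
      exact (E3 hCol hCob hMni h (hcov i a ha).1 (hcov i a ha).2).1
    refine le_trans ?_ h3
    by_cases hs3 : 1 - 3 * s ≤ 0
    · exfalso
      linarith
    · push Not at hs3
      have h4 : (1 - s) * (ε * L * f) * (Ω' * ((1 + c) ^ 2 * M * (1 - 3 * s))) ≤
          ((AS X b N E).card : ℝ) * (Ω' * ((1 + c) ^ 2 * M * (1 - 3 * s))) := by
        apply mul_le_mul_of_nonneg_right (hA1 i)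
        exact mul_nonneg hΩ'0 (mul_nonneg (mul_nonneg (sq_nonneg _) hM0.le) hs3.le)
      refine le_trans ?_ h4
      have h5 : (1 - s) * (ε * L * f) * (Ω' * ((1 + c) ^ 2 * M * (1 - 3 * s))) =
          (L * f * Ω') * ((1 - s) * (1 - 3 * s) * (μ * M)) := by
        rw [hμ]; ring
      rw [h5]
      have h6 : (1 - s) * Ω * ((1 - s) * (1 - 3 * s) * (μ * M)) ≤
          (L * f * Ω') * ((1 - s) * (1 - 3 * s) * (μ * M)) := by
        apply mul_le_mul_of_nonneg_right hLf2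
        have : 0 ≤ μ * M := by positivity
        have h8 : 0 ≤ (1 - s) * (1 - 3 * s) := mul_nonneg (by linarith) hs3.le
        exact mul_nonneg h8 this
      refine le_trans ?_ h6
      have h7 : 1 - s' ≤ (1 - s) * ((1 - s) * (1 - 3 * s)) := in1 hs0 hs1 hs'
      calc (1 - s') * μ * A = (1 - s') * (μ * (Ω * M)) := by rw [hA]; ring
        _ ≤ (1 - s) * ((1 - s) * (1 - 3 * s)) * (μ * (Ω * M)) := by
            apply mul_le_mul_of_nonneg_right h7
            positivity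
        _ = _ := by ring
  have h2' : ∀ _i : Fin 1, ∑ n ∈ SI X b, V n ^ 2 * Np (AS X b N E) n ≤ (1 + s') * μ * A := by
    intro i
    rw [moment1]
    have h3 : ∑ a ∈ AS X b N E, ∑ n ∈ SP X b a, V n ^ 2 ≤
        ((AS X b N E).card : ℝ) * (Ω' * ((1 + c) ^ 2 * M * (1 + s))) := by
      rw [← nsmul_eq_mul, ← sum_const]
      refine sum_le_sum fun a ha => ?_
      exact (E3 hCol hCob hMni h (hcov i a ha).1 (hcov i a ha).2).2
    refine h3.trans ?_
    have h4 : ((AS X b N E).card : ℝ) * (Ω' * ((1 + c) ^ 2 * M * (1 + s))) ≤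
        (1 + s) * (ε * L * f) * (Ω' * ((1 + c) ^ 2 * M * (1 + s))) := by
      apply mul_le_mul_of_nonneg_right (hA2 i)
      exact mul_nonneg hΩ'0 (mul_nonneg (mul_nonneg (sq_nonneg _) hM0.le) (by linarith))
    refine h4.trans ?_
    have h5 : (1 + s) * (ε * L * f) * (Ω' * ((1 + c) ^ 2 * M * (1 + s))) =
        (L * f * Ω') * ((1 + s) * (1 + s) * (μ * M)) := by
      rw [hμ]; ring
    rw [h5]
    have h6 : (L * f * Ω') * ((1 + s) * (1 + s) * (μ * M)) ≤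
        (1 + s) * Ω * ((1 + s) * (1 + s) * (μ * M)) := by
      apply mul_le_mul_of_nonneg_right hLf1
      positivity
    refine h6.trans ?_
    have h7 : (1 + s) * ((1 + s) * (1 + s)) ≤ 1 + s' := in2 hs0 hs1 hs'
    calc (1 + s) * Ω * ((1 + s) * (1 + s) * (μ * M)) =
        (1 + s) * ((1 + s) * (1 + s)) * (μ * (Ω * M)) := by ring
      _ ≤ (1 + s') * (μ * (Ω * M)) := by
          apply mul_le_mul_of_nonneg_right h7
          positivity
      _ = _ := by rw [hA]; ring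
  -- clusters, second factorial moment
  have h3 : ∀ _i : Fin 1, ∑ n ∈ SI X b, V n ^ 2 * (Np (AS X b N E) n *
      ((Np (AS X b N E) n : ℝ) - 1)) ≤ (1 + s) ^ 4 / w4 * μ ^ 2 * A := by
    intro i
    rw [moment2]
    obtain ⟨T, hT⟩ : ∃ T : ℝ, T = Ω' * v * ((1 + c) ^ 4 * M * (1 + s)) := ⟨_, rfl⟩
    have hT0 : 0 ≤ T := by
      rw [hT]
      exact mul_nonneg (mul_nonneg hΩ'0 hv0) (by positivity)
    have h4 : ∑ a ∈ AS X b N E, ∑ a' ∈ (AS X b N E).erase a,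
        ∑ n ∈ (SP X b a).filter (fun n => (n + a').Prime), V n ^ 2 ≤
        ∑ a ∈ AS X b N E, ∑ a' ∈ AS X b N E, T := by
      refine sum_le_sum fun a ha => ?_
      refine le_trans ?_ (sum_le_sum_of_subset_of_nonneg (erase_subset a _)
        fun _ _ _ => hT0)
      refine sum_le_sum fun a' ha' => ?_
      rw [mem_erase] at ha'
      rw [hT]
      exact E4 hCol hCob hMni h hX hθ (hcov i a ha).1 (hcov i a' ha'.2).1 ha'.1.symm
        (hcov i a ha).2 (hcov i a' ha'.2).2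
    refine h4.trans ?_
    rw [sum_const, sum_const, nsmul_eq_mul, nsmul_eq_mul, ← mul_assoc]
    have hcA0 : (0 : ℝ) ≤ ((AS X b N E).card : ℝ) := Nat.cast_nonneg _
    have h5 : ((AS X b N E).card : ℝ) * ((AS X b N E).card : ℝ) ≤
        (1 + s) * (ε * L * f) * ((1 + s) * (ε * L * f)) :=
      mul_le_mul (hA2 i) (hA2 i) hcA0 (by positivity)
    refine (mul_le_mul_of_nonneg_right h5 hT0).trans ?_
    have h6 : (1 + s) * (ε * L * f) * ((1 + s) * (ε * L * f)) * T =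
        (L * f * Ω') * (v * (f * L)) * ((1 + s) ^ 3 * (μ ^ 2 * M)) := by
      rw [hT, hμ]; ring
    rw [h6]
    have h7 : (L * f * Ω') * (v * (f * L)) ≤ (1 + s) * Ω * (1 / w4) :=
      mul_le_mul hLf1 hvL (by positivity) (by positivity)
    calc (L * f * Ω') * (v * (f * L)) * ((1 + s) ^ 3 * (μ ^ 2 * M)) ≤
        (1 + s) * Ω * (1 / w4) * ((1 + s) ^ 3 * (μ ^ 2 * M)) :=
          mul_le_mul_of_nonneg_right h7 (by positivity)
      _ = _ := by rw [hA]; ring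
  -- the empty part
  have h4 : ∑ n ∈ SI X b, V n ^ 2 * Np (ES X b N E) n ≤ (20 * Λ * s) * A := by
    rw [moment1]
    obtain ⟨T, hT⟩ : ∃ T : ℝ, T = Ω * v * ((η + s) * M) := ⟨_, rfl⟩
    have hη0 := h.η0
    have hT0 : 0 ≤ T := by
      rw [hT]
      exact mul_nonneg (mul_nonneg hΩ0.le hv0) (by positivity)
    have h5 : ∑ a ∈ ES X b N E, ∑ n ∈ SP X b a, V n ^ 2 ≤ ∑ a ∈ B, T := by
      have hsub : ES X b N E ⊆ B := by
        unfold ES
        exact filter_subset _ _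
      refine le_trans ?_ (sum_le_sum_of_subset_of_nonneg hsub fun _ _ _ => hT0)
      refine sum_le_sum fun a ha => ?_
      have haB := hsub ha
      unfold ES at ha
      rw [mem_filter] at ha
      rw [hT]
      exact E2 hCol hCob hMni h hX hθ haB (by rw [hcf a, if_neg ha.2])
    refine h5.trans ?_
    rw [sum_const, nsmul_eq_mul]
    refine (mul_le_mul_of_nonneg_right hcB hT0).trans ?_
    have h6 : (1 + s) * (Λ * L * f) * T = (v * (f * L)) * ((1 + s) * Λ * (η + s) * A) := by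
      rw [hT, hA]; ring
    rw [h6]
    have h7 : v * (f * L) ≤ 32 / 5 := by
      refine hvL.trans ?_
      rw [div_le_iff₀ hw40]
      linarith
    have h8 : 0 ≤ (1 + s) * Λ * (η + s) * A := by positivity
    refine (mul_le_mul_of_nonneg_right h7 h8).trans ?_
    have h9 : (1 + s) * (η + s) ≤ 3 * s := in3 hs0 hs1 h.ηs
    calc 32 / 5 * ((1 + s) * Λ * (η + s) * A) = 32 / 5 * (Λ * A) * ((1 + s) * (η + s)) := by ring
      _ ≤ 32 / 5 * (Λ * A) * (3 * s) := mul_le_mul_of_nonneg_left h9 (by positivity)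
      _ = 96 / 5 * (Λ * A * s) := by ring
      _ ≤ 20 * (Λ * A * s) := mul_le_mul_of_nonneg_right (by norm_num) (by positivity)
      _ = _ := by ring
  have h5 : ∑ n ∈ SI X b, V n ^ 4 ≤ C * Ω := hsm.2.2.2.2
  have hkey := pv hPz hCs 1 m (SI X b) V (fun _ : Fin 1 => Np (AS X b N E))
    (Np (ES X b N E)) A μ s' ((1 + s) ^ 4 / w4) (20 * Λ * s) (C * Ω) ξ hA0 (by linarith) hs'1
    hμ0 (by positivity) hm h1 h1' h2 h2' h3 h4 h5 (by positivity) hξ hfin
  have h6 : Ω / (16 * (3 * (1 : ℕ) + 1) ^ 2 * C) ≤ (A / (4 * (3 * (1 : ℕ) + 1))) ^ 2 / (C * Ω) := by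
    have h7 : Ω ≤ A := by rw [hA]; nlinarith
    have h8 : Ω / (16 * (3 * (1 : ℕ) + 1) ^ 2 * C) = (Ω / (4 * (3 * (1 : ℕ) + 1))) ^ 2 / (C * Ω) := by
      field_simp
      ring
    rw [h8]
    gcongr
  refine h6.trans (hkey.trans ?_)
  have h9 : (SI X b).filter (fun n => 1 ≤ 4 * Gd m (fun _ : Fin 1 => Np (AS X b N E)) n ∧
      Np (ES X b N E) n = 0) ⊆ (SI X b).filter (fun n => GoodA m E Λ X n) := by
    intro n hn
    rw [mem_filter] at hn ⊢
    exact ⟨hn.1, goodA_of m E Λ hHX hn.1 hn.2.1 hn.2.2⟩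
  exact_mod_cast card_le_card h9


end Pool.Agent.X28.MA
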