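import Pool.Agent.X28.MA.ClsA
import Pool.Agent.H361R2.PP.Asm2

/-! The master theorem for arbitrary dense sets of shifts. -/

set_option autoImplicit false

open Finset

namespace Pool.Agent.X28.MA

open Pool.Agent.H361R2.PP
open Pool.Agent.H410R2.AC (wt GG cfg term WW pos Inj coef)

open Classical in
/-- for every set `E` of at least `ρ log X` shifts in `[1, Λ log X]`, a positive proportion of the
integers `n` has at least `m` primes `n + a`, `a ∈ E`, and no other primes in `n + [1, Λ log X]` -/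
def MasterA : Prop := ∀ (m : ℕ) (ρ Λ : ℝ), 0 < ρ → 0 < Λ → ∃ c : ℝ, 0 < c ∧ ∃ X₀ : ℕ, ∀ X : ℕ,
  X₀ ≤ X → ∀ E : Finset ℕ, (∀ a ∈ E, 1 ≤ a ∧ (a : ℝ) ≤ Λ * Real.log X) →
  ρ * Real.log X ≤ E.card →
  c * X ≤ (((Ico X (2 * X)).filter (fun n => GoodA m E Λ X n)).card : ℝ)

theorem sum_AS (X N : ℕ) (E : Finset ℕ) (hE : ∀ a ∈ E, 1 ≤ a ∧ a ≤ N) :
    ∑ b ∈ range (Wm X), (AS X b N E).card = E.card * Nat.totient (Wm X) := by
  classical
  have h1 : ∀ b ∈ range (Wm X), (AS X b N E).card =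
      ∑ a ∈ E, if (b + a).Coprime (Wm X) then 1 else 0 := by
    intro b _
    rw [← Finset.sum_filter, Finset.sum_const, smul_eq_mul, mul_one]
    congr 1
    ext a
    unfold AS
    rw [mem_filter, mem_filter]
    unfold BB
    rw [mem_filter, mem_Icc]
    constructor
    · rintro ⟨⟨_, h2⟩, h3⟩
      exact ⟨h3, h2⟩
    · rintro ⟨h3, h2⟩
      exact ⟨⟨hE a h3, h2⟩, h3⟩
  rw [Finset.sum_congr rfl h1, Finset.sum_comm]
  have h2 : ∀ a ∈ E, (∑ b ∈ range (Wm X), if (b + a).Coprime (Wm X) then 1 else 0) =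
      Nat.totient (Wm X) := by
    intro a _
    rw [← Finset.sum_filter, Finset.sum_const, smul_eq_mul, mul_one,
      ← Nat.filter_coprime_Ico_eq_totient (Wm X) a]
    refine Finset.card_bij (fun b _ => b + a) ?_ ?_ ?_
    · intro b hb
      rw [mem_filter, mem_range] at hb
      rw [mem_filter, mem_Ico]
      exact ⟨⟨by omega, by omega⟩, hb.2.symm⟩
    · intro b _ b' _ h
      omega
    · intro y hy
      rw [mem_filter, mem_Ico] at hy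
      refine ⟨y - a, ?_, by omega⟩
      rw [mem_filter, mem_range]
      refine ⟨by omega, ?_⟩
      have : y - a + a = y := by omega
      rw [this]
      exact hy.2.symm
  rw [Finset.sum_congr rfl h2, Finset.sum_const, smul_eq_mul]

/-- many classes contain many shifts of the set -/
theorem many_classes {X N : ℕ} {ρ Λ s L f : ℝ} (E : Finset ℕ) (hE : ∀ a ∈ E, 1 ≤ a ∧ a ≤ N)
    (hρ : 0 < ρ) (hΛ : 0 < Λ) (hs0 : 0 ≤ s) (hs : s ≤ 1) (hL : 0 < L)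
    (hf : f = (Nat.totient (Wm X) : ℝ) / Wm X) (hcard : ρ * L ≤ E.card)
    (hB : ∀ b < Wm X, ((BB X b N).card : ℝ) ≤ (1 + s) * (Λ * L * f)) :
    ρ / (4 * Λ) * Wm X ≤
      (((range (Wm X)).filter (fun b => ρ / 2 * (L * f) ≤ ((AS X b N E).card : ℝ))).card : ℝ) := by
  classical
  have hW0 : (0 : ℝ) < Wm X := by exact_mod_cast Wm_pos X
  have hφ0 : (0 : ℝ) < Nat.totient (Wm X) := by exact_mod_cast Nat.totient_pos.2 (Wm_pos X)
  have hf0 : 0 < f := by rw [hf]; exact div_pos hφ0 hW0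
  have h1 : ((∑ b ∈ range (Wm X), (AS X b N E).card : ℕ) : ℝ) = E.card * Nat.totient (Wm X) := by
    rw [sum_AS X N E hE]
    push_cast
    ring
  rw [Nat.cast_sum] at h1
  have h2 : ∀ b ∈ range (Wm X), ((AS X b N E).card : ℝ) ≤ ρ / 2 * (L * f) +
      (if ρ / 2 * (L * f) ≤ ((AS X b N E).card : ℝ) then 2 * Λ * (L * f) else 0) := by
    intro b hb
    split_ifs with hc
    · have h3 : ((AS X b N E).card : ℝ) ≤ (BB X b N).card := by
        unfold AS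
        exact_mod_cast card_filter_le _ _
      have h4 := hB b (mem_range.1 hb)
      have h5 : (1 + s) * (Λ * L * f) ≤ 2 * (Λ * L * f) :=
        mul_le_mul_of_nonneg_right (by linarith) (by positivity)
      have h6 : 0 ≤ ρ / 2 * (L * f) := by positivity
      nlinarith
    · push Not at hc
      linarith
  have h3 := Finset.sum_le_sum h2
  rw [h1, Finset.sum_add_distrib, Finset.sum_const, card_range, nsmul_eq_mul, ← Finset.sum_filter,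
    Finset.sum_const, nsmul_eq_mul] at h3
  set T := (((range (Wm X)).filter (fun b => ρ / 2 * (L * f) ≤ ((AS X b N E).card : ℝ))).card : ℝ)
    with hT
  have h4 : ρ * L * Nat.totient (Wm X) ≤ E.card * Nat.totient (Wm X) :=
    mul_le_mul_of_nonneg_right hcard hφ0.le
  have h5 : ρ * L * Nat.totient (Wm X) = Wm X * (ρ * (L * f)) := by
    rw [hf]
    field_simp
  rw [h5] at h4
  have h6 : (Wm X : ℝ) * (ρ / 2) * (L * f) ≤ T * (2 * Λ) * (L * f) := by nlinarith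
  have hLf : 0 < L * f := mul_pos hL hf0
  have h7 : (Wm X : ℝ) * (ρ / 2) ≤ T * (2 * Λ) := le_of_mul_le_mul_right h6 hLf
  have h8 : ρ / (4 * Λ) * Wm X = (Wm X : ℝ) * (ρ / 2) / (2 * Λ) := by
    field_simp
    ring
  rw [h8, div_le_iff₀ (by positivity)]
  exact h7

open Classical in
theorem sum_classesA (m : ℕ) (E : Finset ℕ) (Λ : ℝ) (X : ℕ) (q ρ' : ℝ) (hq : 0 ≤ q)
    (T : Finset ℕ) (hT : T ⊆ range (Wm X)) (hTc : ρ' * Wm X ≤ T.card)
    (h : ∀ b ∈ T, (X : ℝ) / Wm X * q ≤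
      (((SI X b).filter (fun n => GoodA m E Λ X n)).card : ℝ)) :
    ρ' * q * X ≤ (((Ico X (2 * X)).filter (fun n => GoodA m E Λ X n)).card : ℝ) := by
  have hW := Wm_pos X
  have h1 : ((Ico X (2 * X)).filter (fun n => GoodA m E Λ X n)).card =
      ∑ b ∈ range (Wm X), ((SI X b).filter (fun n => GoodA m E Λ X n)).card := by
    rw [card_eq_sum_card_fiberwise (f := fun n => n % Wm X) (t := range (Wm X))]
    · refine sum_congr rfl fun b _ => ?_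
      congr 1
      ext n
      simp only [mem_filter, mem_SI, mem_Ico]
      tauto
    · intro n _
      simp only [coe_range, Set.mem_Iio]
      exact Nat.mod_lt _ hW
  rw [h1]
  push_cast
  have hW0 : (0 : ℝ) < Wm X := by exact_mod_cast hW
  calc ρ' * q * X = (ρ' * Wm X) * ((X : ℝ) / Wm X * q) := by
        field_simp
    _ ≤ T.card * ((X : ℝ) / Wm X * q) := mul_le_mul_of_nonneg_right hTc (by positivity)
    _ = ∑ b ∈ T, (X : ℝ) / Wm X * q := by rw [sum_const, nsmul_eq_mul]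
    _ ≤ ∑ b ∈ T, (((SI X b).filter (fun n => GoodA m E Λ X n)).card : ℝ) := sum_le_sum h
    _ ≤ _ := sum_le_sum_of_subset_of_nonneg hT (fun _ _ _ => Nat.cast_nonneg _)

open Classical in
theorem masterA_of (hSM : SM) (hTy : Pool.Agent.H410R2.AC.Types) (hGGT : GGTypes)
    (hGGS : GGSharp) (hMer : Mer) (hMrv : Mrv) (hCnt : Cnt) (hPnt : PntX) (hCol : Col)
    (hCob : Cob) (hMni : Mni) (hPz : Pz) (hCs : Cs) (hWtx : Wtx) : MasterA := by
  intro m ρ Λ hρ hΛ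
  obtain ⟨ξ, hξ⟩ : ∃ ξ : ℝ, ξ = 1 / (8 * (((1 : ℕ) : ℝ) + 1)) := ⟨_, rfl⟩
  have hξ0 : 0 < ξ := by rw [hξ]; positivity
  have hξ1 : ξ ≤ 1 / 8 := by
    rw [hξ, div_le_div_iff₀ (by positivity) (by norm_num)]
    norm_num
  obtain ⟨s', hs'⟩ : ∃ s' : ℝ, s' = ξ / 16 := ⟨_, rfl⟩
  obtain ⟨s, hs⟩ : ∃ s : ℝ, s = ξ / (3000 * (Λ + 1)) := ⟨_, rfl⟩
  obtain ⟨θ, hθ⟩ : ∃ θ : ℝ, θ = ξ / 96 := ⟨_, rfl⟩
  have hs'0 : 0 < s' := by rw [hs']; linarith
  have hs0 : 0 < s := by rw [hs]; positivity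
  have hθ0 : 0 < θ := by rw [hθ]; linarith
  have hθ1 : θ ≤ 1 / 32 := by rw [hθ]; linarith
  have hsξ : s ≤ ξ / 3000 := by
    rw [hs]
    apply div_le_div_of_nonneg_left hξ0.le (by norm_num)
    linarith
  have hs1 : s ≤ 1 := by linarith
  have h7 : 7 * s ≤ s' := by rw [hs']; linarith
  obtain ⟨ε₀, hε₀⟩ : ∃ ε₀ : ℝ, ε₀ = ρ / 2 := ⟨_, rfl⟩
  have hε₀0 : 0 < ε₀ := by rw [hε₀]; positivity
  obtain ⟨μ₀, hμd⟩ : ∃ μ₀ : ℝ, μ₀ = max (2 * ((m : ℝ) + 1) / s') ε₀ := ⟨_, rfl⟩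
  have hμ1 : 2 * ((m : ℝ) + 1) / s' ≤ μ₀ := by rw [hμd]; exact le_max_left _ _
  have hμ2 : ε₀ ≤ μ₀ := by rw [hμd]; exact le_max_right _ _
  obtain ⟨c, hcd⟩ : ∃ c : ℝ, c = Real.sqrt (μ₀ / ε₀) - 1 := ⟨_, rfl⟩
  have hμε : 1 ≤ μ₀ / ε₀ := by rwa [le_div_iff₀ hε₀0, one_mul]
  have hc : 0 ≤ c := by
    rw [hcd, sub_nonneg]
    exact Real.one_le_sqrt.2 hμε
  have hμc : μ₀ = ε₀ * (1 + c) ^ 2 := by
    rw [hcd, add_sub_cancel, Real.sq_sqrt (by positivity)]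
    field_simp
  obtain ⟨CT, hCT1, hCT⟩ := hGGT
  obtain ⟨CM, hCM1, hCM⟩ := hMer
  obtain ⟨η', hη'⟩ : ∃ η' : ℝ, η' = s / 2 / (2 * (1 + c) ^ 2 * Λ * CM) := ⟨_, rfl⟩
  have hη'0 : 0 < η' := by rw [hη']; positivity
  obtain ⟨t, u, β, V₀, hV₀, huβ, hβ1, hu, hty⟩ := hTy CT η' (θ / 2) hCT1 hη'0 (by linarith)
  have h1c : (1 : ℝ) ≤ (1 + c) ^ 2 := by nlinarith
  obtain ⟨δ₀, hδ₀, hsm⟩ := hSM t u ((1 + c) ^ 2) Λ θ s (fun τ => (huβ τ).1) hu hθ0 hθ1 h1c hΛ hs0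
  obtain ⟨dβ, hdβ0, hdβ⟩ : ∃ d : ℝ, 0 < d ∧ ∀ τ, d ≤ β τ / η' := by
    refine ⟨1 / (∑ τ, η' / β τ + 1), ?_, fun τ => ?_⟩
    · have : 0 ≤ ∑ τ, η' / β τ := sum_nonneg fun τ _ => (div_pos hη'0 (huβ τ).2).le
      positivity
    · have h1 : η' / β τ ≤ ∑ τ, η' / β τ :=
        single_le_sum (f := fun τ => η' / β τ) (fun τ _ => (div_pos hη'0 (huβ τ).2).le)
          (mem_univ τ)
      have h2 : 0 < η' / β τ := div_pos hη'0 (huβ τ).2
      calc 1 / (∑ τ, η' / β τ + 1) ≤ 1 / (η' / β τ) :=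
            one_div_le_one_div_of_le h2 (by linarith)
        _ = β τ / η' := by rw [one_div_div]
  obtain ⟨δ, hδd⟩ : ∃ δ : ℝ, δ = min (min δ₀ V₀) (min (1 / 8) dβ) := ⟨_, rfl⟩
  have hδ0 : 0 < δ := by
    rw [hδd]
    exact lt_min (lt_min hδ₀ hV₀) (lt_min (by norm_num) hdβ0)
  have hδ1 : δ ≤ δ₀ := by rw [hδd]; exact (min_le_left _ _).trans (min_le_left _ _)
  have hδ2 : δ ≤ V₀ := by rw [hδd]; exact (min_le_left _ _).trans (min_le_right _ _)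
  have hδ3 : δ ≤ 1 / 8 := by rw [hδd]; exact (min_le_right _ _).trans (min_le_left _ _)
  have hδ4 : δ ≤ dβ := by rw [hδd]; exact (min_le_right _ _).trans (min_le_right _ _)
  obtain ⟨C, X1, hC, hSMX⟩ := hsm δ hδ0 hδ1
  obtain ⟨X2, hGX⟩ := hCT δ hδ0 hδ3
  obtain ⟨X3, hMX⟩ := hCM δ hδ0 (by linarith)
  obtain ⟨X4, hVX⟩ := hMrv δ (s / ((1 + c) ^ 2 * η' * δ * t + 1)) hδ0 (by linarith)
    (by positivity)
  obtain ⟨X5, hCX⟩ := hCnt s Λ Λ hs0 hΛ hΛ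
  obtain ⟨X6, hPX⟩ := hPnt s hs0
  obtain ⟨X7, hWX⟩ := hWtx.2 δ hδ0 (by linarith)
  obtain ⟨X8, hFX⟩ := log_floor (a := 1 / 4 - 2 * θ) (θ := θ) (by linarith) hθ0
  refine ⟨ρ / (4 * Λ) * (1 / (16 * (3 * (1 : ℕ) + 1) ^ 2 * C)), by positivity,
    X1 + X2 + X3 + X4 + X5 + X6 + X7 + X8 + 2, fun X hX E hE hcard => ?_⟩
  have hX2 : 2 ≤ X := by omega
  have hX1 : 1 ≤ X := by omega
  have hL : 0 < Real.log X := Real.log_pos (by exact_mod_cast hX2)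
  obtain ⟨hw1, -, hw3⟩ := hWX X (by omega)
  have hJ : 2 ^ 2 ^ JJ δ X ≤ X := by
    have h1 : (X : ℝ) ^ δ ≤ (X : ℝ) ^ (1 : ℝ) :=
      Real.rpow_le_rpow_of_exponent_le (by exact_mod_cast hX1) (by linarith)
    rw [Real.rpow_one] at h1
    exact_mod_cast hw1.trans h1
  have hHX : HH X < X := lt_of_lt_of_le hw3 hJ
  obtain ⟨hV0, hM1, hM2⟩ := hMX X (by omega)
  obtain ⟨hF1, hF2⟩ := hFX X (by omega)
  have hEN : ∀ a ∈ E, 1 ≤ a ∧ a ≤ ⌊Λ * Real.log X⌋₊ := by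
    intro a ha
    exact ⟨(hE a ha).1, Nat.le_floor (hE a ha).2⟩
  have hBcnt : ∀ b : ℕ, ((BB X b ⌊Λ * Real.log X⌋₊).card : ℝ) ≤
      (1 + s) * (Λ * Real.log X * (Nat.totient (Wm X) / Wm X)) := by
    intro b
    have h1 := hCX X (by omega) b 0 (Λ * Real.log X) le_rfl (by
      rw [zero_add]) le_rfl
    rw [sub_zero] at h1
    have h2 : (BB X b ⌊Λ * Real.log X⌋₊).filter
        (fun a : ℕ => (0 : ℝ) < a ∧ (a : ℝ) ≤ Λ * Real.log X) = BB X b ⌊Λ * Real.log X⌋₊ := by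
      apply filter_true_of_mem
      intro a ha
      rw [mem_BB] at ha
      refine ⟨by exact_mod_cast ha.1, ?_⟩
      exact (Nat.le_floor_iff (by positivity)).1 ha.2.1
    rw [h2] at h1
    linarith [(abs_le.1 h1).2]
  have hmany := many_classes (X := X) (N := ⌊Λ * Real.log X⌋₊) (s := s) (L := Real.log X)
    (f := (Nat.totient (Wm X) : ℝ) / Wm X) E hEN hρ hΛ hs0.le hs1 hL rfl hcard
    (fun b _ => hBcnt b)
  refine sum_classesA m E Λ X _ _ (by positivity) _ (filter_subset _ _) hmany ?_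
  intro b hb
  rw [mem_filter, mem_range] at hb
  obtain ⟨hb, hbA⟩ := hb
  rw [mul_one_div]
  -- families
  obtain ⟨S, hS1, hS2, hS3, hS4⟩ := fam_of (X := X) (T := θ / 2) hδ0 hL (by linarith)
    (hty δ · · · hδ0 hδ2) (hGX X (by omega))
  obtain ⟨D, hsit, hDcf⟩ := sit_of (CM := CM) (X := X) (b := b) (θ := θ) (C := C) hc hs0 hs1 hδ0
    hη'0 hΛ (by linarith) hη' (fun τ => (huβ τ).2) hβ1 (fun τ => hδ4.trans (hdβ τ)) hL S hS1
    hS2 hS3 hS4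
    (fun a => if a ∈ E then c else -1)
    (by intro a; split_ifs; exacts [Or.inl rfl, Or.inr rfl])
    (fun D B hB c hc => hSMX X (by omega) b hb D B hB c hc) (hBcnt b) hV0 hM1 (hVX X (by omega)) hJ
  have hW0 : (0 : ℝ) < Wm X := by exact_mod_cast Wm_pos X
  have hφ0 : (0 : ℝ) < Nat.totient (Wm X) := by exact_mod_cast Nat.totient_pos.2 (Wm_pos X)
  have hf0 : 0 < (Nat.totient (Wm X) : ℝ) / Wm X := div_pos hφ0 hW0
  have hLf0 : 0 < Real.log X * ((Nat.totient (Wm X) : ℝ) / Wm X) := mul_pos hL hf0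
  obtain ⟨ε, hε⟩ : ∃ ε : ℝ, ε = ((AS X b ⌊Λ * Real.log X⌋₊ E).card : ℝ) /
      (Real.log X * ((Nat.totient (Wm X) : ℝ) / Wm X)) := ⟨_, rfl⟩
  have hεε₀ : ε₀ ≤ ε := by
    rw [hε, hε₀, le_div_iff₀ hLf0]
    exact hbA
  have hε0 : 0 < ε := lt_of_lt_of_le hε₀0 hεε₀
  obtain ⟨μ, hμ⟩ : ∃ μ : ℝ, μ = ε * (1 + c) ^ 2 := ⟨_, rfl⟩
  have hμμ : μ₀ ≤ μ := by
    rw [hμ, hμc]
    exact mul_le_mul_of_nonneg_right hεε₀ (by positivity)
  obtain ⟨hm, hμ0, hξi⟩ := xi_ineq (m := m) hξ0 hξ1 hs' hs0.le hsξ (hμ1.trans hμμ)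
  refine clsA hCol hCob hMni hPz hCs hsit hX1 hHX hL hθ0 hθ1 hC hΛ m E ε hε0
    (fun a => by rw [hDcf]) ?_ (hBcnt b) (hPX X (by omega))
    (VG_le hGGS hθ0 hθ1 hX1 hM2 hV0 hF1 hF2) s' μ ξ h7 (by linarith) hμ hm ?_
    (fin_ineq hξ hs' hΛ hs)
  · rw [mul_assoc, hε, div_mul_cancel₀ _ hLf0.ne']
  · rw [hθ]
    exact hξi

theorem masterA : MasterA :=
  masterA_of sm Pool.Agent.H708R2.types (Pool.Agent.H488R2.ggtypes Pool.Agent.H325R2.wtx)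
    Pool.Agent.H633R2.ggSharp (Pool.Agent.H488R2.mer Pool.Agent.H325R2.wtx)
    (Pool.Agent.H488R2.mrv Pool.Agent.H325R2.wtx) Pool.Agent.H363R2.PPCnt.cnt
    Pool.Agent.H325R2.pnt Pool.Agent.H872R2.PPCol.col Pool.Agent.H872R2.PPCol.cob
    Pool.Agent.H433R2.PPMni.mni Pool.Agent.H909R2.pz_holds Pool.Agent.H909R2.cs_holds
    Pool.Agent.H325R2.wtx

end Pool.Agent.X28.MA
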