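import Pool.Agent.X28.EO.Main
import Pool.Agent.X28.MA.MasA

/-! Every dense set of shifts contains a positive proportion of `m`-element sets which are realised
by consecutive primes the expected number of times. -/

set_option autoImplicit false

open Finset

namespace Pool.Agent.X28.MA

open Pool.Agent.X28.EO
open Pool.Agent.Y958.U (hh)
open Pool.Agent.Y904.U (moment hh_nonneg hh_pow)

/-- second moment over functions -/
theorem mom3 (m : ℕ) : ∃ C : ℝ, 0 < C ∧ ∀ D : ℕ, 1 ≤ D →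
    ∑ f ∈ Fintype.piFinset (fun _ : Fin m => Icc 1 D), Gv (fun i => ((f i : ℕ) : ℤ)) ^ 2 ≤
      C * (D : ℝ) ^ m := by
  classical
  obtain ⟨I, hI⟩ : ∃ I : Finset (Sigma fun _ : Fin m => Fin m),
      I = univ.sigma (fun i => univ.erase i) := ⟨_, rfl⟩
  obtain ⟨C, hC, hp⟩ := moment (m * 2 * I.card)
  refine ⟨1 + I.card * (1 + 2 * C), by positivity, fun D hD => ?_⟩
  have h1 : ∀ f : Fin m → ℕ, Gv (fun i => ((f i : ℕ) : ℤ)) ^ 2 ≤ 1 + ∑ q ∈ I,
      hh (m * 2 * I.card) (((f q.1 : ℕ) : ℤ) - ((f q.2 : ℕ) : ℤ)).natAbs := by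
    intro f
    have h2 : Gv (fun i => ((f i : ℕ) : ℤ)) ^ 2 =
        ∏ q ∈ I, hh (m * 2) (((f q.1 : ℕ) : ℤ) - ((f q.2 : ℕ) : ℤ)).natAbs := by
      unfold Gv
      rw [hI, Finset.prod_sigma, ← Finset.prod_pow]
      refine Finset.prod_congr rfl (fun i _ => ?_)
      rw [← Finset.prod_pow]
      refine Finset.prod_congr rfl (fun j _ => ?_)
      rw [hh_pow]
    rw [h2]
    refine (prod_le_sum' I _ (fun q _ => hh_nonneg _ _)).trans (le_of_eq ?_)
    congr 1
    refine Finset.sum_congr rfl (fun q _ => ?_)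
    rw [hh_pow]
  refine (Finset.sum_le_sum (fun f _ => h1 f)).trans ?_
  rw [Finset.sum_add_distrib, Finset.sum_const, Finset.sum_comm]
  have h3 : ((Fintype.piFinset (fun _ : Fin m => Icc 1 D)).card : ℝ) = (D : ℝ) ^ m := by
    rw [Fintype.card_piFinset]
    simp
  rw [nsmul_eq_mul, mul_one, h3]
  have h5 : (1 + (I.card : ℝ) * (1 + 2 * C)) * (D : ℝ) ^ m =
      (D : ℝ) ^ m + I.card * ((1 + 2 * C) * (D : ℝ) ^ m) := by
    ring
  rw [h5]
  refine add_le_add le_rfl ?_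
  have h4 : ∀ q ∈ I, ∑ f ∈ Fintype.piFinset (fun _ : Fin m => Icc 1 D),
      hh (m * 2 * I.card) (((f q.1 : ℕ) : ℤ) - ((f q.2 : ℕ) : ℤ)).natAbs ≤
        (1 + 2 * C) * (D : ℝ) ^ m := by
    intro q hq
    rw [hI, Finset.mem_sigma] at hq
    have hne : q.2 ≠ q.1 := Finset.ne_of_mem_erase hq.2
    refine form1 (k := m) _ hp D hD q.1 (fun f => ((f q.2 : ℕ) : ℤ)) ?_ ?_
    · intro f f' hff
      show ((f q.2 : ℕ) : ℤ) = ((f' q.2 : ℕ) : ℤ)
      rw [hff q.2 hne]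
    · intro f hf
      have := Fintype.mem_piFinset.1 hf q.2
      rw [Finset.mem_Icc] at this
      constructor
      · show (0 : ℤ) ≤ ((f q.2 : ℕ) : ℤ)
        omega
      · show ((f q.2 : ℕ) : ℤ) ≤ D
        omega
  refine (Finset.sum_le_sum h4).trans (le_of_eq ?_)
  rw [Finset.sum_const, nsmul_eq_mul]

theorem setSum (m : ℕ) : ∃ C : ℝ, 0 < C ∧ ∀ D : ℕ, 1 ≤ D → ∀ E : Finset ℕ, E ⊆ Icc 1 D →
    ∑ B ∈ powersetCard m E, GH m B ^ 2 ≤ C * (D : ℝ) ^ m := by
  classical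
  obtain ⟨C, hC, hm2⟩ := mom3 m
  refine ⟨C, hC, fun D hD E hE => ?_⟩
  obtain ⟨tl, htl⟩ : ∃ tl : Finset ℕ → (Fin m → ℕ), ∀ B : Finset ℕ, ∀ h : B.card = m,
      tl B = fun i => B.orderEmbOfFin h i := by
    refine ⟨fun B => if h : B.card = m then (fun i => B.orderEmbOfFin h i) else fun _ => 0, ?_⟩
    intro B h
    exact dif_pos h
  have hinj : Set.InjOn tl (powersetCard m E : Set (Finset ℕ)) := by
    intro B hB B' hB' he
    rw [Finset.mem_coe, mem_powersetCard] at hB hB'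
    rw [htl B hB.2, htl B' hB'.2] at he
    have h6 : Set.range (B.orderEmbOfFin hB.2) = Set.range (B'.orderEmbOfFin hB'.2) := by
      ext y
      constructor
      · rintro ⟨i, rfl⟩
        exact ⟨i, (congrFun he i).symm⟩
      · rintro ⟨i, rfl⟩
        exact ⟨i, congrFun he i⟩
    rw [Finset.range_orderEmbOfFin, Finset.range_orderEmbOfFin] at h6
    exact_mod_cast h6
  have h1 : ∑ B ∈ powersetCard m E, GH m B ^ 2 =
      ∑ f ∈ (powersetCard m E).image tl, Gv (fun i => ((f i : ℕ) : ℤ)) ^ 2 := by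
    rw [Finset.sum_image hinj]
    refine Finset.sum_congr rfl (fun B hB => ?_)
    rw [mem_powersetCard] at hB
    rw [GH, dif_pos hB.2, htl B hB.2]
  rw [h1]
  refine le_trans (Finset.sum_le_sum_of_subset_of_nonneg ?_ (fun _ _ _ => sq_nonneg _)) (hm2 D hD)
  intro f hf
  obtain ⟨B, hB, rfl⟩ := Finset.mem_image.1 hf
  rw [mem_powersetCard] at hB
  rw [Fintype.mem_piFinset]
  intro i
  rw [htl B hB.2]
  exact hE (hB.1 (Finset.orderEmbOfFin_mem _ _ _))

/-- the smallest elements of a finite set -/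
theorem first_elts (A : Finset ℕ) (m : ℕ) (h : m ≤ A.card) :
    ∃ B ⊆ A, B.card = m ∧ ∀ y ∈ A, (∃ b ∈ B, y ≤ b) → y ∈ B := by
  classical
  induction m with
  | zero => exact ⟨∅, empty_subset _, rfl, fun y _ hy => by
      obtain ⟨b, hb, _⟩ := hy
      exact absurd hb (notMem_empty b)⟩
  | succ m ih =>
    obtain ⟨B, hBA, hBc, hB⟩ := ih (by omega)
    have hne : (A \ B).Nonempty := by
      rw [← Finset.card_pos, Finset.card_sdiff_of_subset hBA]
      omega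
    have h1 := Finset.min'_mem _ hne
    rw [Finset.mem_sdiff] at h1
    refine ⟨insert ((A \ B).min' hne) B, ?_, ?_, ?_⟩
    · intro y hy
      rcases Finset.mem_insert.1 hy with rfl | hy
      · exact h1.1
      · exact hBA hy
    · rw [Finset.card_insert_of_notMem h1.2, hBc]
    · rintro y hy ⟨b, hb, hyb⟩
      rw [Finset.mem_insert]
      by_cases hyB : y ∈ B
      · exact Or.inr hyB
      · left
        have h2 := Finset.min'_le (A \ B) y (Finset.mem_sdiff.2 ⟨hy, hyB⟩)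
        rcases Finset.mem_insert.1 hb with rfl | hb
        · omega
        · exact absurd (hB y hy ⟨b, hb, hyb⟩) hyB

/-- the primes in `(n, n + max B]` are exactly the `n + b`, `b ∈ B` -/
def Exactly (B : Finset ℕ) (n : ℕ) : Prop :=
  (∀ b ∈ B, (n + b).Prime) ∧ ∀ y : ℕ, 1 ≤ y → (n + y).Prime → (∃ b ∈ B, y ≤ b) → y ∈ B

theorem dense (m : ℕ) (ρ Λ : ℝ) (hρ : 0 < ρ) (hΛ : 0 < Λ) :
    ∃ c C : ℝ, 0 < c ∧ ∃ x₀ : ℕ, ∀ x : ℕ, x₀ ≤ x → ∀ E : Finset ℕ,
      (∀ a ∈ E, 1 ≤ a ∧ (a : ℝ) ≤ Λ * Real.log x) → ρ * Real.log x ≤ E.card →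
      ∃ F : Finset (Finset ℕ), c * (Real.log x) ^ m ≤ F.card ∧ ∀ B ∈ F, B ⊆ E ∧ B.card = m ∧
        Admissible B ∧
        (∃ G : Finset ℕ, c * (x / (Real.log x) ^ m) ≤ G.card ∧
          ∀ n ∈ G, 1 ≤ n ∧ n ≤ x ∧ Exactly B n) ∧
        (((Icc 1 x).filter (fun n => ∀ h ∈ B, (n + h).Prime)).card : ℝ) ≤
          C * (x / (Real.log x) ^ m) := by
  classical
  obtain ⟨c₁, hc₁, N₁, h₁⟩ := masterA m ρ (2 * Λ) hρ (by positivity)
  obtain ⟨C₂, N₂, hC₂, h₂⟩ := sieveH m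
  obtain ⟨C₃, hC₃, h₃⟩ := setSum m
  obtain ⟨A, hA⟩ : ∃ A : ℝ, A = Λ ^ m := ⟨_, rfl⟩
  have hA0 : 0 < A := by rw [hA]; positivity
  obtain ⟨c₄, hc₄⟩ : ∃ c₄ : ℝ, c₄ = c₁ / 4 := ⟨_, rfl⟩
  have hc₄0 : 0 < c₄ := by rw [hc₄]; positivity
  obtain ⟨c₅, hc₅⟩ : ∃ c₅ : ℝ, c₅ = c₄ / (4 * A) := ⟨_, rfl⟩
  have hc₅0 : 0 < c₅ := by rw [hc₅]; positivity
  obtain ⟨K, hK⟩ : ∃ K : ℝ, K = 4 * C₂ * C₃ * A / c₄ := ⟨_, rfl⟩
  have hK0 : 0 < K := by rw [hK]; positivity
  have hlog := Real.tendsto_log_atTop.comp (tendsto_natCast_atTop_atTop (R := ℝ))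
  have e1 := hlog.eventually_ge_atTop 1
  have e2 := hlog.eventually_ge_atTop (1 / Λ)
  have e4 : ∀ᶠ x : ℕ in Filter.atTop, ((m : ℝ) + 1) * (Real.log x) ^ m ≤ c₅ * x := by
    have h1 : (fun x : ℝ => Real.log x ^ m) =o[Filter.atTop] (fun x : ℝ => x) :=
      Real.isLittleO_pow_log_id_atTop
    have h2 := h1.bound (show (0 : ℝ) < c₅ / (m + 1) by positivity)
    have h3 := tendsto_natCast_atTop_atTop (R := ℝ) |>.eventually h2
    filter_upwards [h3, Filter.eventually_ge_atTop 1] with X hX hX1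
    have hX1' : (1 : ℝ) ≤ X := by exact_mod_cast hX1
    rw [Real.norm_of_nonneg (pow_nonneg (Real.log_nonneg hX1') _),
      Real.norm_of_nonneg (by linarith)] at hX
    calc ((m : ℝ) + 1) * (Real.log X) ^ m ≤ ((m : ℝ) + 1) * (c₅ / (m + 1) * X) :=
          mul_le_mul_of_nonneg_left hX (by positivity)
      _ = c₅ * X := by field_simp
  obtain ⟨X₀, hX₀⟩ := Filter.eventually_atTop.1 ((e1.and e2).and e4)
  refine ⟨min c₅ (c₄ / (2 * (C₂ * K))), C₂ * K, lt_min hc₅0 (by positivity),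
    X₀ + 2 * N₁ + N₂ + 16, fun x hx E hE hcard => ?_⟩
  obtain ⟨⟨f1, f2⟩, f4⟩ := hX₀ x (by omega)
  simp only [Function.comp_apply] at f1 f2
  obtain ⟨L, hL⟩ : ∃ L, L = Real.log x := ⟨_, rfl⟩
  rw [← hL] at f1 f2 f4 hE hcard ⊢
  have hxpos : (0 : ℝ) < x := by exact_mod_cast (by omega : 0 < x)
  have hLpos : 0 < L := by linarith
  obtain ⟨D, hD⟩ : ∃ D, D = ⌊Λ * L⌋₊ := ⟨_, rfl⟩
  have hlL : 1 ≤ Λ * L := by
    rw [div_le_iff₀ hΛ] at f2
    linarith
  have hD1 : 1 ≤ D := by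
    rw [hD]
    exact Nat.le_floor (by exact_mod_cast hlL)
  have hD2 : (D : ℝ) ≤ Λ * L := by
    rw [hD]
    exact Nat.floor_le (by positivity)
  have hED : E ⊆ Icc 1 D := by
    intro a ha
    rw [mem_Icc, hD]
    exact ⟨(hE a ha).1, Nat.le_floor (hE a ha).2⟩
  obtain ⟨N, hN⟩ : ∃ N, N = x / 2 := ⟨_, rfl⟩
  have hN8 : 8 ≤ N := by omega
  have hNx : x ≤ N ^ 2 := by
    have h1 : x ≤ 2 * N + 1 := by omega
    nlinarith
  have hNpos : (0 : ℝ) < N := by exact_mod_cast (by omega : 0 < N)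
  have hlN1 : Real.log N ≤ L := by
    rw [hL]
    exact Real.log_le_log hNpos (by exact_mod_cast (by omega : N ≤ x))
  have hlN2 : L ≤ 2 * Real.log N := by
    have h5 : (x : ℝ) ≤ (N : ℝ) ^ 2 := by exact_mod_cast hNx
    have h6 := Real.log_le_log hxpos h5
    rw [Real.log_pow] at h6
    rw [hL]
    exact_mod_cast h6
  have hm1 := h₁ N (by omega) E (fun a ha => ⟨(hE a ha).1, (hE a ha).2.trans (by
      have := mul_le_mul_of_nonneg_left hlN2 hΛ.le
      linarith)⟩) (le_trans (mul_le_mul_of_nonneg_left hlN1 hρ.le) hcard)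
  obtain ⟨S, hS⟩ : ∃ S, S = (Ico N (2 * N)).filter (fun n => GoodA m E (2 * Λ) N n) := ⟨_, rfl⟩
  rw [← hS] at hm1
  have hScard : c₄ * x ≤ S.card := by
    have h5 : (x : ℝ) / 4 ≤ N := by
      have h6 : x ≤ 4 * N := by omega
      have h7 : (x : ℝ) ≤ 4 * N := by exact_mod_cast h6
      linarith
    have h7 : c₁ * ((x : ℝ) / 4) ≤ c₁ * N := mul_le_mul_of_nonneg_left h5 hc₁.le
    rw [hc₄]
    linarith
  -- counting
  have hex : ∀ n : ℕ, ∃ B : Finset ℕ, n ∈ S → B ∈ powersetCard m E ∧ Exactly B n := by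
    intro n
    by_cases hn : n ∈ S
    · rw [hS, mem_filter] at hn
      obtain ⟨B, hB1, hB2, hB3⟩ := first_elts _ m hn.2.1
      refine ⟨B, fun _ => ⟨?_, fun b hb => (mem_filter.1 (hB1 hb)).2, fun y hy1 hy hyb => ?_⟩⟩
      · rw [mem_powersetCard]
        exact ⟨hB1.trans (filter_subset _ _), hB2⟩
      · obtain ⟨b, hb, hyb⟩ := hyb
        refine hB3 y (mem_filter.2 ⟨?_, hy⟩) ⟨b, hb, hyb⟩
        refine hn.2.2 y ?_ hy
        rw [mem_Icc]
        refine ⟨hy1, Nat.le_floor ?_⟩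
        have h1 : (y : ℝ) ≤ b := by exact_mod_cast hyb
        have h2 := (hE b (mem_filter.1 (hB1 hb)).1).2
        have := mul_le_mul_of_nonneg_left hlN2 hΛ.le
        linarith
    · exact ⟨∅, fun h => absurd h hn⟩
  choose q hq using hex
  obtain ⟨NB, hNB⟩ : ∃ NB : Finset ℕ → ℕ, NB = fun B =>
    ((Icc 1 x).filter (fun n => Exactly B n)).card := ⟨_, rfl⟩
  have hcnt : S.card ≤ ∑ B ∈ powersetCard m E, NB B := by
    have h1 : ∑ B ∈ powersetCard m E, NB B =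
        ((powersetCard m E).sigma (fun B => (Icc 1 x).filter (fun n => Exactly B n))).card := by
      rw [Finset.card_sigma, hNB]
    rw [h1]
    refine Finset.card_le_card_of_injOn
      (fun n => (⟨q n, n⟩ : Sigma fun _ : Finset ℕ => ℕ)) ?_ ?_
    · intro n hn
      rw [Finset.mem_coe] at hn
      obtain ⟨h2, h3⟩ := hq n hn
      rw [Finset.mem_coe, Finset.mem_sigma, mem_filter, mem_Icc]
      rw [hS, mem_filter, mem_Ico] at hn
      refine ⟨h2, ⟨?_, ?_⟩, h3⟩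
      · show 1 ≤ n
        omega
      · show n ≤ x
        omega
    · intro a _ b _ hab
      exact congrArg (fun s : (Sigma fun _ : Finset ℕ => ℕ) => s.2) hab
  have hcnt' : (S.card : ℝ) ≤ ∑ B ∈ powersetCard m E, (NB B : ℝ) := by
    exact_mod_cast hcnt
  have htot : c₄ * x ≤ ∑ B ∈ powersetCard m E, (NB B : ℝ) := hScard.trans hcnt'
  obtain ⟨T, hT⟩ : ∃ T : ℝ, T = x / L ^ m := ⟨_, rfl⟩
  have hT0 : 0 < T := by rw [hT]; positivity
  have hTL : L ^ m * T = x := by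
    rw [hT]
    field_simp
  obtain ⟨F, hF1, hF2, hF3⟩ := final_ineq (powersetCard m E) (fun B => (NB B : ℝ))
    (fun H => (((Icc 1 x).filter (fun n => ∀ h ∈ H, (n + h).Prime)).card : ℝ)) (GH m)
    (c₅ := c₅) (K := K) (C₂ := C₂) (T := T) (M := C₃ * (A * L ^ m)) (Q := A * L ^ m)
    (A := c₄ * x)
    (fun B _ => by
      have h1 : NB B ≤ ((Icc 1 x).filter (fun n => ∀ h ∈ B, (n + h).Prime)).card := by
        rw [hNB]
        refine card_le_card ?_
        intro n hn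
        rw [mem_filter] at hn ⊢
        exact ⟨hn.1, hn.2.1⟩
      exact_mod_cast h1) (fun H _ => GH_nonneg m H) hK0 hC₂ hT0
    (fun B hB => by
      rw [mem_powersetCard] at hB
      have := h₂ x (by omega) B hB.2
      rw [← hL, ← hT] at this
      exact this)
    (by
      refine (h₃ D hD1 E hED).trans (mul_le_mul_of_nonneg_left ?_ hC₃.le)
      rw [hA, ← mul_pow]
      exact pow_le_pow_left₀ (Nat.cast_nonneg _) hD2 _)
    (by
      have h1 : (powersetCard m E).card ≤ D ^ m := by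
        rw [card_powersetCard]
        refine (Nat.choose_le_pow _ _).trans (Nat.pow_le_pow_left ?_ _)
        have := card_le_card hED
        rwa [Nat.card_Icc, Nat.add_sub_cancel] at this
      have h2 : ((powersetCard m E).card : ℝ) ≤ (D : ℝ) ^ m := by exact_mod_cast h1
      refine h2.trans ?_
      rw [hA, ← mul_pow]
      exact pow_le_pow_left₀ (by positivity) hD2 _)
    htot hc₅0
    (by
      have h1 : A * L ^ m * (c₅ * T) = A * c₅ * (L ^ m * T) := by ring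
      rw [h1, hTL, hc₅]
      refine le_of_eq ?_
      field_simp)
    (by
      have h1 : C₂ * T / K * (C₃ * (A * L ^ m)) = C₂ * C₃ * A / K * (L ^ m * T) := by
        ring
      rw [h1, hTL, hK]
      refine le_of_eq ?_
      field_simp)
  refine ⟨F, ?_, fun B hB => ?_⟩
  · have h1 : c₄ * x / 2 = c₄ / (2 * (C₂ * K)) * L ^ m * (C₂ * K * T) := by
      have h2 : c₄ / (2 * (C₂ * K)) * L ^ m * (C₂ * K * T) =
          c₄ / (2 * (C₂ * K)) * (C₂ * K) * (L ^ m * T) := by ring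
      rw [h2, hTL]
      field_simp
    rw [h1] at hF3
    have h2 : c₄ / (2 * (C₂ * K)) * L ^ m ≤ F.card :=
      le_of_mul_le_mul_right hF3 (by positivity)
    refine le_trans (mul_le_mul_of_nonneg_right (min_le_right _ _) (by positivity)) h2
  · have hP := hF1 hB
    rw [mem_powersetCard] at hP
    obtain ⟨hP1, hP2⟩ := hP
    obtain ⟨g1, g2⟩ := hF2 B hB
    refine ⟨hP1, hP2, ?_, ⟨(Icc 1 x).filter (fun n => Exactly B n), ?_, ?_⟩, ?_⟩
    · refine adm_of (x := x) hP2 ?_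
      have h1 : (m : ℝ) + 1 ≤ c₅ * T := by
        rw [hT, ← mul_div_assoc, le_div_iff₀ (by positivity)]
        exact f4
      have h2 : (m : ℝ) + 1 ≤ (NB B : ℝ) := h1.trans g1
      have h3 : m + 1 ≤ NB B := by exact_mod_cast h2
      have h4 : NB B ≤ ((Icc 1 x).filter (fun n => ∀ h ∈ B, (n + h).Prime)).card := by
        rw [hNB]
        refine card_le_card ?_
        intro n hn
        rw [mem_filter] at hn ⊢
        exact ⟨hn.1, hn.2.1⟩
      omega
    · rw [← hT]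
      refine le_trans (mul_le_mul_of_nonneg_right (min_le_left _ _) hT0.le) ?_
      rw [hNB] at g1
      exact g1
    · intro n hn
      rw [mem_filter, mem_Icc] at hn
      exact ⟨hn.1.1, hn.1.2, hn.2⟩
    · rw [← hT]
      exact g2

end Pool.Agent.X28.MA
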